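import Mathlib
import Pool.Agent.MP_4b0b35_an.Mg.Transfer

/-!
The Hardy space of the disc is a complex Hilbert space `H` with the orthonormal basis
`e n = z ^ n`; the vector `a` is the analytic function
`f a : z ↦ ∑' n, inner ℂ (e n) a * z ^ n`, whose Taylor coefficients are the coordinates of `a`.
A bounded operator `T` is the weighted composition operator with symbols `ψ`, `φ` when the
function of `T a` is `ψ` times the function of `a` composed with `φ`.
-/

namespace Pool.Agent.Results.MP_4b0b35_an.SpectrumZero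

/-- A compact weighted composition operator on the Hardy space whose composition symbol has no
fixed point in the open unit disc has spectrum `{0}`. -/
theorem result {H : Type*} [NormedAddCommGroup H] [InnerProductSpace ℂ H] [CompleteSpace H]
    (e : HilbertBasis ℕ ℂ H) (f : H → ℂ → ℂ)
    (hf : ∀ (a : H) (z : ℂ), f a z = ∑' n : ℕ, inner ℂ (e n) a * z ^ n)
    (ψ φ : ℂ → ℂ)
    (hψ : DifferentiableOn ℂ ψ (Metric.ball 0 1))
    (hφ : DifferentiableOn ℂ φ (Metric.ball 0 1))
    (hmaps : Set.MapsTo φ (Metric.ball 0 1) (Metric.ball 0 1))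
    (hfix : ∀ p ∈ Metric.ball (0 : ℂ) 1, φ p ≠ p)
    (T : H →L[ℂ] H)
    (hT : ∀ a : H, ∀ z ∈ Metric.ball (0 : ℂ) 1, f (T a) z = ψ z * f a (φ z))
    (hc : IsCompactOperator T) :
    spectrum ℂ T = {0} :=
  Pool.Agent.MP_4b0b35_an.spectrum_eq_basis e f hf ψ φ hψ hφ hmaps hfix T hT hc

end Pool.Agent.Results.MP_4b0b35_an.SpectrumZero
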